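import Pool.Agent.Helper26.WR.Stmts

set_option autoImplicit false

/-! # Surjectivity of the induced homomorphism to the wreath product (SURJ) -/

namespace Pool.Agent.Helper26.WR

open Pool.Agent.Helper21.DN

universe u

/-- elements fixing `F` as automorphisms over `F` -/
def surj_toF {K F M : Type u} [Field K] [Field F] [Field M] [Algebra K M] [Algebra F M]
    (H : Subgroup (M ≃ₐ[K] M))
    (hH : ∀ g ∈ H, ∀ x : F, g (algebraMap F M x) = algebraMap F M x) : H →* (M ≃ₐ[F] M) where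
  toFun g := AlgEquiv.ofRingEquiv (f := g.1.toRingEquiv) (fun x => hH g.1 g.2 x)
  map_one' := by
    ext x
    rfl
  map_mul' g h := by
    ext x
    rfl

theorem surj_toF_apply {K F M : Type u} [Field K] [Field F] [Field M] [Algebra K M] [Algebra F M]
    (H : Subgroup (M ≃ₐ[K] M))
    (hH : ∀ g ∈ H, ∀ x : F, g (algebraMap F M x) = algebraMap F M x) (g : H) (x : M) :
    surj_toF H hH g x = g.1 x := rfl

theorem surj_sum_val (p : ℕ) [Fact p.Prime] (M : Type u) [Field M] [CharP M p] {W : Type}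
    [Fintype W] (c : W → Multiplicative (ZMod p)) (h : ∏ w, c w = 1) :
    ∑ w, (((c w).toAdd.val : ℕ) : M) = 0 := by
  have h1 : ∑ w, (c w).toAdd = 0 := by
    have := congrArg Multiplicative.toAdd h
    simpa [toAdd_prod] using this
  have h2 : (((∑ w, (c w).toAdd.val : ℕ)) : ZMod p) = 0 := by
    push_cast
    simp only [ZMod.natCast_val, ZMod.cast_id', id_eq]
    exact h1
  rw [ZMod.natCast_eq_zero_iff] at h2
  rw [← Nat.cast_sum]
  exact (CharP.cast_eq_zero_iff M p _).2 h2

theorem st_SURJ (hIND : ST_IND.{u}) : ST_SURJ.{u} := by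
  intro p _ K F L N M _ _ _ _ _ _ _ _ _ _ _ _ _ _ _ _ _ _ _ _ _ _ _ _ _ _ _ P1 _ i1 W _ _ w0
    hw0 τ hτ B _ _ hB iB y f hy hf hind
  classical
  haveI : CharP M p := charP_of_injective_algebraMap (algebraMap K M).injective p
  haveI : IsGalois L M := IsGalois.tower_top_of_isGalois K L M
  haveI : FiniteDimensional L M := FiniteDimensional.right K L M
  set r1 : (M ≃ₐ[K] M) →* P1 := i1.toMonoidHom.comp (AlgEquiv.restrictNormalHom L) with hr1
  have hr1a : ∀ g, r1 g = i1 (AlgEquiv.restrictNormalHom L g) := fun g => rfl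
  have hcomm : ∀ (g : M ≃ₐ[K] M) (x : L),
      algebraMap L M (AlgEquiv.restrictNormalHom L g x) = g (algebraMap L M x) := fun g x =>
    AlgEquiv.restrictNormal_commutes g L x
  have hr1s : Function.Surjective r1 := fun q => by
    obtain ⟨g, hg⟩ := AlgEquiv.restrictNormalHom_surjective M (F := K) (K₁ := L) (i1.symm q)
    exact ⟨g, by rw [hr1a, hg, MulEquiv.apply_symm_apply]⟩
  have hr1i : ∀ g : M ≃ₐ[K] M, (∀ x : L, g (algebraMap L M x) = algebraMap L M x) → r1 g = 1 := by
    intro g hg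
    rw [hr1a]
    have : AlgEquiv.restrictNormalHom L g = 1 := by
      ext x
      apply (algebraMap L M).injective
      rw [hcomm, hg]
      rfl
    rw [this, map_one]
  set H : Subgroup (M ≃ₐ[K] M) := (MulAction.stabilizer P1 w0).comap r1 with hHdef
  have hHm : ∀ g, g ∈ H ↔ r1 g • w0 = w0 := fun g => by
    rw [hHdef, Subgroup.mem_comap, MulAction.mem_stabilizer_iff]
  have hFM : ∀ x : F, algebraMap F M x = algebraMap L M (algebraMap F L x) := fun x =>
    IsScalarTower.algebraMap_apply F L M x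
  have hHF : ∀ g ∈ H, ∀ x : F, g (algebraMap F M x) = algebraMap F M x := by
    intro g hg x
    rw [hHm, hr1a] at hg
    have h1 := (hw0 _).1 hg x
    rw [hFM, ← hcomm, h1]
  set toF := surj_toF (F := F) H hHF with htoF
  have htoFa : ∀ (g : H) (x : M), toF g x = g.1 x := fun g x => rfl
  set β : H →* B := iB.toMonoidHom.comp ((AlgEquiv.restrictNormalHom N).comp toF) with hβ
  have hβa : ∀ g : H, β g = iB (AlgEquiv.restrictNormalHom N (toF g)) := fun g => rfl
  have htex : ∀ w, ∃ t : M ≃ₐ[K] M, AlgEquiv.restrictNormalHom L t = τ w := fun w =>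
    AlgEquiv.restrictNormalHom_surjective M (F := K) (K₁ := L) (τ w)
  choose t ht using htex
  have htw : ∀ w, r1 (t w) • w0 = w := fun w => by
    rw [hr1a, ht, hτ]
  obtain ⟨ρ, h1, h2, h3⟩ := hIND p (M ≃ₐ[K] M) P1 W w0 B hB r1 hr1s H hHm β t htw
  have hmem : ∀ (g : M ≃ₐ[K] M) (w : W), (t w)⁻¹ * g * t ((r1 g)⁻¹ • w) ∈ H := by
    intro g w
    rw [hHm, map_mul, map_mul, map_inv, mul_smul, mul_smul, htw, smul_inv_smul, inv_smul_eq_iff,
      htw]
  have hmem1 : ∀ (g : M ≃ₐ[K] M) (w : W), r1 g = 1 → (t w)⁻¹ * g * t w ∈ H := by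
    intro g w hg
    have := hmem g w
    rwa [hg, inv_one, one_smul] at this
  have hleft : ∀ (g : M ≃ₐ[K] M) (hg : r1 g = 1) (w : W),
      (ρ g).left w = β ⟨(t w)⁻¹ * g * t w, hmem1 g w hg⟩ := by
    intro g hg w
    have hdep : ∀ w' (_ : w' = w) (h : (t w)⁻¹ * g * t w' ∈ H),
        β ⟨(t w)⁻¹ * g * t w', h⟩ = β ⟨(t w)⁻¹ * g * t w, hmem1 g w hg⟩ := by
      intro w' hw' h
      subst hw'
      rfl
    rw [h2 g w (hmem g w)]
    exact hdep _ (by rw [hg, inv_one, one_smul]) _
  have hNcomm : ∀ (g : M ≃ₐ[F] M) (x : N),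
      algebraMap N M (AlgEquiv.restrictNormalHom N g x) = g (algebraMap N M x) := fun g x =>
    AlgEquiv.restrictNormal_commutes g N x
  refine ⟨ρ, ?_, ?_, ?_, ?_⟩
  · apply h3
    intro χ hχ
    by_contra hcon
    push Not at hcon
    set z : W → M := fun w => algebraMap N M (y (χ w)) with hz
    set U : M := ∑ w, t w (z w) with hU
    have hfix : ∀ g : M ≃ₐ[K] M, r1 g = 1 → g U = U := by
      intro g hg
      have hterm : ∀ w, g (t w (z w)) =
          t w (z w) + (((χ w ((ρ g).left w)).toAdd.val : ℕ) : M) := by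
        intro w
        have e1 : g (t w (z w)) = t w (((t w)⁻¹ * g * t w) (z w)) := by
          simp [AlgEquiv.mul_apply, AlgEquiv.aut_inv]
        have e2 : ((t w)⁻¹ * g * t w) (z w) =
            z w + (((χ w ((ρ g).left w)).toAdd.val : ℕ) : M) := by
          have e3 := hNcomm (toF ⟨(t w)⁻¹ * g * t w, hmem1 g w hg⟩) (y (χ w))
          rw [htoFa] at e3
          rw [hz]
          simp only
          rw [← e3, hy, map_add, map_natCast, ← hβa, ← hleft g hg w]
        rw [e1, e2, map_add, map_natCast]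
      rw [hU, map_sum, Finset.sum_congr rfl fun w _ => hterm w, Finset.sum_add_distrib,
        surj_sum_val p M (fun w => χ w ((ρ g).left w)) (hcon g hg), add_zero]
    have hUr : U ∈ Set.range (algebraMap L M) := by
      rw [IsGalois.mem_range_algebraMap_iff_fixed]
      intro φ
      have := hfix (φ.restrictScalars K) (hr1i _ fun x => by
        rw [AlgEquiv.restrictScalars_apply]
        exact φ.commutes x)
      rwa [AlgEquiv.restrictScalars_apply] at this
    obtain ⟨h, hh⟩ := hUr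
    apply hind χ hχ h
    apply (algebraMap L M).injective
    rw [map_sub, map_pow, hh, hU, map_sum]
    have hpow : (∑ w, t w (z w)) ^ p = ∑ w, (t w (z w)) ^ p := by
      exact map_sum (frobenius M p) (fun w => t w (z w)) Finset.univ
    rw [hpow, ← Finset.sum_sub_distrib]
    refine Finset.sum_congr rfl fun w _ => ?_
    rw [← map_pow, ← map_sub]
    have e1 : z w ^ p - z w = algebraMap F M (f (χ w)) := by
      rw [hz]
      simp only
      rw [← map_pow, ← map_sub, hf, ← IsScalarTower.algebraMap_apply F N M]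
    rw [e1, hFM, ← hcomm, ht]
  · intro σ
    rw [h1, hr1a]
  · intro σ hσ w _
    have hσ1 : r1 σ = 1 := by rw [← h1, hσ]
    refine ⟨t w, toF ⟨(t w)⁻¹ * σ * t w, hmem1 σ w hσ1⟩, fun x => rfl, ?_⟩
    rw [hleft σ hσ1 w, hβa]
  · intro σ' hσL hσN hρ
    set σ := AlgEquiv.restrictScalars K σ' with hσ
    have hσ1 : r1 σ = 1 := hr1i σ fun x => by
      rw [hσ, AlgEquiv.restrictScalars_apply]
      exact hσL x
    have hσH : σ ∈ H := by rw [hHm, hσ1, one_smul]
    have htH : t w0 ∈ H := by rw [hHm, htw]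
    have e1 := hleft σ hσ1 w0
    rw [hρ] at e1
    have e2 : (⟨(t w0)⁻¹ * σ * t w0, hmem1 σ w0 hσ1⟩ : H) =
        (⟨t w0, htH⟩ : H)⁻¹ * ⟨σ, hσH⟩ * ⟨t w0, htH⟩ := rfl
    rw [e2, map_mul, map_mul, map_inv] at e1
    have e3 : β ⟨σ, hσH⟩ = 1 := by
      have e4 : (1 : B) = (β ⟨t w0, htH⟩)⁻¹ * β ⟨σ, hσH⟩ * β ⟨t w0, htH⟩ := e1
      have e5 : β ⟨σ, hσH⟩ = β ⟨t w0, htH⟩ * ((β ⟨t w0, htH⟩)⁻¹ * β ⟨σ, hσH⟩ * β ⟨t w0, htH⟩) *
        (β ⟨t w0, htH⟩)⁻¹ := by group
      rw [e5, ← e4]
      group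
    rw [hβa] at e3
    have e6 : AlgEquiv.restrictNormalHom N (toF ⟨σ, hσH⟩) = 1 := by
      apply iB.injective
      rw [e3, map_one]
    apply hσN
    rw [← e6]
    rfl

end Pool.Agent.Helper26.WR
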